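import Pool.Agent.Helper97_MTE.Fin
import Pool.Agent.Helper20_MTE.Spn
import Pool.Agent.Helper2_MTE.Fkd
import Pool.Agent.Helper2_MTE.Lit
import Pool.Agent.Helper46_MTE.Lat
import Pool.Agent.Helper46_MTE.Jox
import Pool.Agent.Helper78_MTE.Pri
import Pool.Agent.Helper78_MTE.Ntz
import Pool.Agent.Helper96_MTE.Dte

/-! Assembly of MT100-E. -/

set_option autoImplicit false

namespace Pool.Agent.MT100E.H97

open Matrix Polynomial Pool.Agent.MT100 Pool.Agent.MT100G Pool.Agent.MT100A Pool.Agent.MT100D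
  Pool.Agent.Helper78_MT Pool.Agent.MTL

universe u

theorem lat' : LatStmt := H46.lat aut H96.dte
theorem ladE' : LadEStmt.{u} :=
  ladE MT100A.H81.nea MT100A.H78.cur MT100A.H64.des H78.pri
    (H78.ntz H46.jox MT100A.H96.log MT100A.H78.cur nfz H96.dte) lat' H2.lit H20.spn
    (H2.fkd lat' H96.dte)

/-- the final form, without hypotheses on the modules -/
theorem finE' (d : Type) [Fintype d] [DecidableEq d] (F : Family d) (w : ℕ) (lev : d → ℕ)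
    (hw : 1 ≤ w) :
    ∃ (C : ℕ) (n1 : ℕ → ℕ), ∀ P : Matrix d d ℂ, IsUnit P.det → F.IntM P →
      ∃ S : Set ℕ, DensZero S ∧
        (∀ K n : ℕ, n1 K ≤ n → Nat.card {m : ℕ // m ∈ S ∧ n < m + K ∧ m ≤ n} ≤ C) ∧
        (∀ n : ℕ, n ∉ S → ∀ (E : Matrix d d ℚ) (V : ℕ → Submodule ℂ (d → ℂ)),
          F.Fibre lev P w n E V → FirstKind E (F.Mo P) → TorusIn w V (F.Mo P) →
          ∀ (K : Type u) [Field K] [CharZero K], mtGroup w V K = GmM (F.Mo P) K) ∧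
        ∀ ρ : (ℓ : ℕ) → [Fact ℓ.Prime] → GT →* GL d ℚ_[ℓ],
          (∀ (ℓ : ℕ) [Fact ℓ.Prime], Continuous (ρ ℓ)) →
          ∃ (T : Set ℕ) (N : ℕ → ℕ), DensZero T ∧ ∀ (ℓ : ℕ) [Fact ℓ.Prime] (n : ℕ),
            n ∉ S → n ∉ T → N ℓ ≤ n →
            ∀ (E : Matrix d d ℚ) (V : ℕ → Submodule ℂ (d → ℂ)), F.Fibre lev P w n E V →
            TorusIn w V (F.Mo P) → GeoN (F.Mo P) E w V (ρ ℓ) →
            ∀ ρn : GQ →* GL d ℚ_[ℓ], Specializes (ρ ℓ) n ρn →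
            ∀ (K : Type u) [Field K] [CharZero K] [Algebra ℚ_[ℓ] K],
              monodromy ρn K = mtGroup w V K := by
  obtain ⟨C, n1, h⟩ := finE.{u} ladE' d F w lev hw
  refine ⟨C, n1, fun P hP hI => ?_⟩
  obtain ⟨S, hS, hwin, h1, h2⟩ := h P hP hI
  exact ⟨S, hS, hwin, fun n hn E V hF hFK hT K _ _ => (h1 n hn E V hF K).2 hFK hT, h2⟩

end Pool.Agent.MT100E.H97
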