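import Pool.Agent.Helper97_MTE.Lad2
import Pool.Agent.Helper97_MTD.Ass

/-! MT100-E: the final form. -/

set_option autoImplicit false
set_option linter.unusedSectionVars false

namespace Pool.Agent.MT100E.H97

open Matrix Polynomial Pool.Agent.MT100 Pool.Agent.MT100G Pool.Agent.MT100A Pool.Agent.MT100D
  Pool.Agent.Helper78_MT Pool.Agent.MTL

universe u

/-- the Mumford-Tate conjecture for one hundred percent of the integral fibres of the families whose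
commutant is of type `(0,0)` -/
theorem finE (hL : LadEStmt.{u}) (d : Type) [Fintype d] [DecidableEq d]
    (F : Family d) (w : ℕ) (lev : d → ℕ) (hw : 1 ≤ w) :
    ∃ (C : ℕ) (n1 : ℕ → ℕ), ∀ P : Matrix d d ℂ, IsUnit P.det → F.IntM P →
      ∃ S : Set ℕ, DensZero S ∧
        (∀ K n : ℕ, n1 K ≤ n → Nat.card {m : ℕ // m ∈ S ∧ n < m + K ∧ m ≤ n} ≤ C) ∧
        (∀ n : ℕ, n ∉ S → ∀ (E : Matrix d d ℚ) (V : ℕ → Submodule ℂ (d → ℂ)),
          F.Fibre lev P w n E V → ∀ (K : Type u) [Field K] [CharZero K],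
          mtGroup w V K = GenM (F.Mo P) w V K ∧
          (FirstKind E (F.Mo P) → TorusIn w V (F.Mo P) → mtGroup w V K = GmM (F.Mo P) K)) ∧
        ∀ ρ : (ℓ : ℕ) → [Fact ℓ.Prime] → GT →* GL d ℚ_[ℓ],
          (∀ (ℓ : ℕ) [Fact ℓ.Prime], Continuous (ρ ℓ)) →
          ∃ (T : Set ℕ) (N : ℕ → ℕ), DensZero T ∧ ∀ (ℓ : ℕ) [Fact ℓ.Prime] (n : ℕ),
            n ∉ S → n ∉ T → N ℓ ≤ n →
            ∀ (E : Matrix d d ℚ) (V : ℕ → Submodule ℂ (d → ℂ)), F.Fibre lev P w n E V →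
            TorusIn w V (F.Mo P) → GeoN (F.Mo P) E w V (ρ ℓ) →
            ∀ ρn : GQ →* GL d ℚ_[ℓ], Specializes (ρ ℓ) n ρn →
            ∀ (K : Type u) [Field K] [CharZero K] [Algebra ℚ_[ℓ] K],
              monodromy ρn K = mtGroup w V K := by
  obtain ⟨C, n1, h⟩ := MT100D.H97.mad'.{u} d F w lev hw
  refine ⟨C, n1, fun P hP hI => ?_⟩
  obtain ⟨S, hS, hwin, h2⟩ := h P hP hI
  have hMul : ∀ a ∈ F.Mo P, ∀ b ∈ F.Mo P, a * b ∈ F.Mo P := fun a ha b hb =>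
    MT100D.H97.Mo_mul MT100D.H97.bas F hP ha hb
  refine ⟨S, hS, hwin, ?_, fun ρ hρ => ?_⟩
  · intro n hn E V hF K _ _
    refine ⟨h2 n hn E V hF K, fun hFK hT => ?_⟩
    rw [h2 n hn E V hF K]
    exact (MT100D.H97.ladm.{u} d (F.Mo P) hMul hI w E V hw hF.1 hF.2.1 hFK hT).1 K
  · obtain ⟨T, N, hT, h3⟩ := MT100A.H34.diag_prime
      (fun ℓ n => ∀ [Fact ℓ.Prime], ∀ ρn : GQ →* GL d ℚ_[ℓ], Specializes (ρ ℓ) n ρn →
        ∀ (K : Type u) [Field K] [Algebra ℚ_[ℓ] K], monodromy ρn K = monodromy (ρ ℓ) K) (by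
      intro ℓ hℓ
      have : Fact ℓ.Prime := ⟨hℓ⟩
      obtain ⟨T, hT, h4⟩ := specialise.{u} serAll (ρ ℓ) (hρ ℓ)
      exact ⟨T, hT, fun n hn _ ρn hsp K _ _ => (h4 n hn ρn hsp).2.2 K⟩)
    refine ⟨T, N, hT, fun ℓ _ n hnS hnT hN E V hF hTT hgeo ρn hsp K _ _ _ => ?_⟩
    rw [h3 ℓ Fact.out n hnT hN ρn hsp K, h2 n hnS E V hF K]
    exact hL d (F.Mo P) hMul hI w E V hw hF.1 hF.2.1 hTT ℓ GT (ρ ℓ) (hρ ℓ) hgeo K

end Pool.Agent.MT100E.H97
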