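import Pool.Agent.Helper97_MTE.Nfz
import Pool.Agent.Helper97_MTA.LadC

/-! MT100-E, module LADE, part 1: preparations. -/

set_option autoImplicit false
set_option linter.unusedSectionVars false

namespace Pool.Agent.MT100E.H97

open Matrix Polynomial Pool.Agent.MT100 Pool.Agent.MT100G Pool.Agent.MT100A Pool.Agent.MT100D
  Pool.Agent.Helper78_MT Pool.Agent.MT100A.H78 Pool.Agent.Helper46_MT
open Pool.Agent.MT100A.H97 (trace_int)

variable {d : Type} [Fintype d] [DecidableEq d] {M : Set (Matrix d d ℂ)} {w : ℕ}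
  {E : Matrix d d ℚ} {π : ℕ → Matrix d d ℂ} {V : ℕ → Submodule ℂ (d → ℂ)}

theorem trace_pos {p : Matrix d d ℂ} (h : p * p = p) (h0 : p ≠ 0) :
    ∃ k : ℕ, 0 < k ∧ p.trace = (k : ℂ) := by
  obtain ⟨k, hk⟩ := trace_int h
  refine ⟨k, Nat.pos_of_ne_zero ?_, hk⟩
  rintro rfl
  apply h0
  have h1 : IsIdempotentElem (Matrix.toLin' p) := by
    show Matrix.toLin' p * Matrix.toLin' p = Matrix.toLin' p
    rw [Module.End.mul_eq_comp, ← Matrix.toLin'_mul, h]
  have h2 := LinearMap.IsIdempotentElem.eq_zero_of_trace_eq_zero h1 (by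
    rw [Matrix.trace_toLin'_eq, hk, Nat.cast_zero])
  exact (LinearEquiv.map_eq_zero_iff Matrix.toLin').1 h2

theorem dete_mul {g h e : Matrix d d ℂ} (he : e * e = e) (hh : h * e = e * h) :
    dete (g * h) e = dete g e * dete h e := by
  unfold dete
  rw [← Matrix.det_mul]
  congr 1
  have h1 : g * e * (h * e) = g * h * e := by
    rw [Matrix.mul_assoc g e, ← Matrix.mul_assoc e h e, ← hh, Matrix.mul_assoc h e e, he,
      ← Matrix.mul_assoc]
  have h2 : g * e * (1 - e) = 0 := by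
    rw [Matrix.mul_assoc, mul_sub, Matrix.mul_one, he, sub_self, Matrix.mul_zero]
  have h3 : (1 - e) * (h * e) = 0 := by
    rw [sub_mul, Matrix.one_mul, ← Matrix.mul_assoc, ← hh, Matrix.mul_assoc, he, sub_self]
  have h4 : (1 - e) * (1 - e) = 1 - e := by
    rw [sub_mul, Matrix.one_mul, mul_sub, Matrix.mul_one, he, sub_self, sub_zero]
  rw [add_mul, mul_add, mul_add, h1, h2, h3, h4, add_zero, zero_add]

theorem dete_one (e : Matrix d d ℂ) : dete 1 e = 1 := by
  unfold dete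
  rw [Matrix.one_mul, add_sub_cancel, Matrix.det_one]

theorem dete_pow {h e : Matrix d d ℂ} (he : e * e = e) (hh : h * e = e * h) (n : ℕ) :
    dete (h ^ n) e = dete h e ^ n := by
  induction n with
  | zero => rw [pow_zero, pow_zero, dete_one]
  | succ n ih => rw [pow_succ, pow_succ, dete_mul he hh, ih]

/-- products of combinations of orthogonal idempotents -/
theorem comb_mul {s : ℕ} {e : Fin s → Matrix d d ℂ} (hi : ∀ i, e i * e i = e i)
    (ho : ∀ i j, i ≠ j → e i * e j = 0) (a b : Fin s → ℂ) :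
    (∑ i, a i • e i) * (∑ i, b i • e i) = ∑ i, (a i * b i) • e i := by
  rw [Finset.sum_mul]
  apply Finset.sum_congr rfl
  intro i _
  rw [Finset.mul_sum, Finset.sum_eq_single i]
  · rw [smul_mul_smul_comm, hi]
  · intro j _ hj
    rw [smul_mul_smul_comm, ho i j (Ne.symm hj), smul_zero]
  · intro h
    exact absurd (Finset.mem_univ i) h

theorem comb_tr {s : ℕ} {e : Fin s → Matrix d d ℂ} (hi : ∀ i, e i * e i = e i)
    (ho : ∀ i j, i ≠ j → e i * e j = 0) (a : Fin s → ℂ) (i : Fin s) :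
    ((∑ j, a j • e j) * e i).trace = a i * (e i).trace := by
  rw [Finset.sum_mul, Finset.sum_eq_single i]
  · rw [smul_mul_assoc, hi, trace_smul, smul_eq_mul]
  · intro j _ hj
    rw [smul_mul_assoc, ho j i hj, smul_zero]
  · intro h
    exact absurd (Finset.mem_univ i) h

/-- central elements are determined by their traces -/
theorem prim_tr {s : ℕ} {e : Fin s → Matrix d d ℂ} (he : Prim M e) {nn : Fin s → ℕ}
    (hn : ∀ i, 0 < nn i) (hnn : ∀ i, (e i).trace = (nn i : ℂ)) {z : Matrix d d ℂ} (hz : z ∈ Zt M)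
    {c : Fin s → ℂ} (hc : ∀ i, (z * e i).trace = c i) : z = ∑ i, (c i / (nn i : ℂ)) • e i := by
  obtain ⟨a, ha⟩ := he.span z hz
  rw [ha]
  apply Finset.sum_congr rfl
  intro i _
  congr 1
  have h1 := hc i
  rw [ha, comb_tr he.idem he.orth, hnn] at h1
  rw [← h1]
  have : (nn i : ℂ) ≠ 0 := by exact_mod_cast (hn i).ne'
  field_simp

/-- the conjugates of the generator of the Deligne torus -/
theorem phi_dec (hC : Ctx M w E V π) {s : ℕ} {e : Fin s → Matrix d d ℂ} (he : Prim M e)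
    {nn : Fin s → ℕ} (hn : ∀ i, 0 < nn i) (hnn : ∀ i, (e i).trace = (nn i : ℂ))
    {k : (ℂ ≃+* ℂ) → Fin s → ℤ} (hk : ∀ τ i, ((Phi w π).map τ * e i).trace = (k τ i : ℂ))
    (τ : ℂ ≃+* ℂ) :
    ∃ u ∈ UP M, (Phi w π).map τ = u + ∑ i, ((k τ i : ℂ) / (nn i : ℂ)) • e i := by
  obtain ⟨u, hu, z, hz, hD⟩ := ((aut d M w E V π hC).2 τ).2.2.1
  refine ⟨u, hu, ?_⟩
  rw [hD]
  congr 1
  refine prim_tr he hn hnn hz fun i => ?_
  have h1 := hk τ i
  rw [hD, add_mul, trace_add, UP_tr hu (he.mem i).1, zero_add] at h1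
  exact h1

/-- the elements of the Deligne torus -/
theorem torus_eq (hC : Ctx M w E V π) {T : Matrix d d ℂ} (hT : T ∈ hodgeTorus w V) :
    ∃ z : ℂ, z ≠ 0 ∧ T = hz w π z := by
  obtain ⟨z, hz0, hTz⟩ := hT
  refine ⟨z, hz0, ?_⟩
  apply Helper46_MT.ind hC.pol.span hC.pol.top
  intro p hp x hx
  rw [hTz p hp x hx]
  unfold hz
  conv_rhs => rw [← hC.fix p x hx]
  rw [mulVec_mulVec, hC.proj.mul_sum (fun p => z ^ p * (starRingEnd ℂ z) ^ (w - p)) hp, smul_mulVec,
    hC.fix p x hx]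
  rfl

/-- the conjugates of the cocharacter -/
noncomputable def Tt (w : ℕ) (π : ℕ → Matrix d d ℂ) (τ : ℂ ≃+* ℂ) (t : ℂ) : Matrix d d ℂ :=
  ∑ a : Fin (w + 1), t ^ (a : ℕ) • (π a).map τ

theorem hz_split (hπ : Proj w E π) (z : ℂ) :
    hz w π z = Tt w π (RingEquiv.refl ℂ) z * Tt w π starRingAut (starRingEnd ℂ z) := by
  have h1 : Tt w π (RingEquiv.refl ℂ) z = ∑ p ∈ Finset.range (w + 1), z ^ p • π p := by
    unfold Tt
    rw [Finset.sum_range]
    apply Finset.sum_congr rfl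
    intro a _
    congr 1
  have h2 : Tt w π starRingAut (starRingEnd ℂ z) =
      ∑ p ∈ Finset.range (w + 1), (starRingEnd ℂ z) ^ (w - p) • π p := by
    rw [← Finset.sum_range_reflect]
    unfold Tt
    rw [Finset.sum_range]
    apply Finset.sum_congr rfl
    intro a _
    have ha : (a : ℕ) ≤ w := Nat.lt_succ_iff.1 a.2
    have h3 : (π a).map (starRingAut : ℂ ≃+* ℂ) = π (w - a) := hπ.conj a ha
    rw [h3]
    have e1 : w + 1 - 1 - (a : ℕ) = w - a := by omega
    have e2 : w - (w - (a : ℕ)) = a := by omega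
    rw [e1, e2]
  rw [h1, h2, Finset.sum_mul]
  unfold hz
  apply Finset.sum_congr rfl
  intro p hp
  have hp' := Nat.lt_succ_iff.1 (Finset.mem_range.1 hp)
  rw [Finset.mul_sum, Finset.sum_eq_single p]
  · rw [smul_mul_smul_comm, hπ.idem p hp']
  · intro q hq hne
    rw [smul_mul_smul_comm, hπ.orth p hp' q (Nat.lt_succ_iff.1 (Finset.mem_range.1 hq))
      (Ne.symm hne), smul_zero]
  · intro h
    exact absurd hp h

theorem Tt_aut (w : ℕ) (π : ℕ → Matrix d d ℂ) (τ σ : ℂ ≃+* ℂ) (t : ℂ) :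
    (Tt w π τ t).map σ = Tt w π (τ.trans σ) (σ t) := by
  unfold Tt
  ext i j
  simp [Matrix.sum_apply, map_sum]

/-- the curve from its generator -/
theorem Tt_mem (h4 : CurStmt) (hπ : Proj w E π) (τ : ℂ ≃+* ℂ) {G : Set (Matrix d d ℂ)}
    (h1 : (1 : Matrix d d ℂ) ∈ G) (hcl : ∀ g ∈ zclosure ℂ ℂ G, g ∈ G)
    (hL : (Phi w π).map τ ∈ lieOf G) {t : ℂ} (ht : t ≠ 0) : Tt w π τ t ∈ G := by
  have hle : ∀ a : Fin (w + 1), (a : ℕ) ≤ w := fun a => Nat.lt_succ_iff.1 a.2
  have h5 := (h4 d G h1).1 (w + 1) (fun a => (π a).map τ) (fun a => ((a : ℕ) : ℤ))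
    (fun a => by rw [← map_mat_mul, hπ.idem a (hle a)])
    (fun a b hab => by
      rw [← map_mat_mul, hπ.orth a (hle a) b (hle b) (fun h => hab (Fin.ext h)),
        Matrix.map_zero _ (map_zero τ)])
    (by
      have h6 := congrArg (fun Y : Matrix d d ℂ => Y.map τ) hπ.sum
      rw [Finset.sum_range] at h6
      have h7 : (∑ a : Fin (w + 1), π a).map τ = ∑ a : Fin (w + 1), (π a).map τ := by
        ext i j
        simp [Matrix.sum_apply, map_sum]
      rw [← h7, h6]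
      exact Matrix.map_one τ (map_zero τ) (map_one τ))
    (by
      have h7 : ∑ a : Fin (w + 1), ((((a : ℕ) : ℤ)) : ℂ) • (π a).map τ = (Phi w π).map τ := by
        unfold Phi
        rw [Finset.sum_range]
        ext i j
        simp [Matrix.sum_apply, map_sum]
      rw [h7]
      exact hL) t ht
  have h6 := hcl _ h5
  have h7 : ∑ a : Fin (w + 1), t ^ (((a : ℕ) : ℤ)) • (π a).map τ = Tt w π τ t := by
    unfold Tt
    apply Finset.sum_congr rfl
    intro a _
    rw [zpow_natCast]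
  rw [h7] at h6
  exact h6

end Pool.Agent.MT100E.H97
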