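import Pool.Agent.Helper97_MTE.Lad1

/-! MT100-E, module LADE, part 2: the two inclusions. -/

set_option autoImplicit false
set_option linter.unusedSectionVars false

namespace Pool.Agent.MT100E.H97

open Matrix Polynomial Pool.Agent.MT100 Pool.Agent.MT100G Pool.Agent.MT100A Pool.Agent.MT100D
  Pool.Agent.Helper78_MT Pool.Agent.MT100A.H78 Pool.Agent.Helper46_MT Pool.Agent.Helper3_MT
open Pool.Agent.MT100A.H97 (trace_int UP_lie det_uni zcl_one zcl_mono zcl_zcl zcl_inv clo_sub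
  des_group Uni_aut pev_ring span_pev)

universe u

theorem zprod {α : Type*} (t : Finset α) {x : ℂ} (hx : x ≠ 0) (f : α → ℤ) :
    ∏ i ∈ t, x ^ f i = x ^ ∑ i ∈ t, f i := by
  classical
  induction t using Finset.induction_on with
  | empty => simp
  | insert a t ha ih => rw [Finset.prod_insert ha, Finset.sum_insert ha, _root_.zpow_add₀ hx, ih]

/-- products of powers of the determinants -/
theorem prodx {r s : ℕ} {x : Fin r → ℂ} (hx : ∀ j, x j ≠ 0) (c : Fin r → Fin s → ℤ)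
    (m : Fin s → ℤ) :
    ∏ i, (∏ j, x j ^ c j i) ^ m i = ∏ j, x j ^ ∑ i, m i * c j i := by
  have h1 : ∀ i, (∏ j, x j ^ c j i) ^ m i = ∏ j, x j ^ (m i * c j i) := by
    intro i
    rw [← Finset.prod_zpow]
    apply Finset.prod_congr rfl
    intro j _
    rw [← _root_.zpow_mul, mul_comm]
  rw [Finset.prod_congr rfl fun i _ => h1 i, Finset.prod_comm]
  apply Finset.prod_congr rfl
  intro j _
  exact zprod _ (hx j) _

theorem prodx_pow {r : ℕ} {x : Fin r → ℂ}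
    (hind : ∀ k : Fin r → ℤ, ∏ j, x j ^ k j = 1 → k = 0) {a : Fin r → ℤ} {N : ℕ} (hN : 0 < N)
    (h : (∏ j, x j ^ a j) ^ N = 1) : a = 0 := by
  have h1 : ∏ j, x j ^ ((N : ℤ) * a j) = 1 := by
    rw [← h, ← Finset.prod_pow]
    apply Finset.prod_congr rfl
    intro j _
    rw [mul_comm, _root_.zpow_mul, zpow_natCast]
  have h2 := hind _ h1
  funext j
  have h3 := congrFun h2 j
  have h4 : (N : ℤ) * a j = 0 := h3
  rcases mul_eq_zero.1 h4 with h5 | h5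
  · exact absurd (by exact_mod_cast h5) hN.ne'
  · exact h5

variable {d : Type} [Fintype d] [DecidableEq d] {M : Set (Matrix d d ℂ)} {w : ℕ}
  {E : Matrix d d ℚ} {π : ℕ → Matrix d d ℂ} {V : ℕ → Submodule ℂ (d → ℂ)}

section rep
variable {ℓ : ℕ} [Fact ℓ.Prime] {Γ : Type} [Group Γ] {ρ : Γ →* GL d ℚ_[ℓ]}

theorem rho_unit (ι : ℚ_[ℓ] →+* ℂ) (γ : Γ) : IsUnit ((ρ γ : Matrix d d ℚ_[ℓ]).map ι).det := by
  have h8 := ((isUnit_iff_isUnit_det _).1 (ρ γ).isUnit).map ι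
  rwa [RingHom.map_det, RingHom.mapMatrix_apply] at h8

theorem rho_mul (ι : ℚ_[ℓ] →+* ℂ) (a b : Γ) : (ρ (a * b) : Matrix d d ℚ_[ℓ]).map ι =
    (ρ a : Matrix d d ℚ_[ℓ]).map ι * (ρ b : Matrix d d ℚ_[ℓ]).map ι := by
  rw [map_mul, GeneralLinearGroup.coe_mul]
  have := map_mul ι.mapMatrix (ρ a : Matrix d d ℚ_[ℓ]) (ρ b : Matrix d d ℚ_[ℓ])
  rwa [RingHom.mapMatrix_apply, RingHom.mapMatrix_apply, RingHom.mapMatrix_apply] at this

theorem rho_one (ι : ℚ_[ℓ] →+* ℂ) : (ρ 1 : Matrix d d ℚ_[ℓ]).map ι = 1 := by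
  rw [map_one, GeneralLinearGroup.coe_one]
  exact Matrix.map_one ι (map_zero ι) (map_one ι)

theorem rho_pow (ι : ℚ_[ℓ] →+* ℂ) (a : Γ) (n : ℕ) : (ρ (a ^ n) : Matrix d d ℚ_[ℓ]).map ι =
    ((ρ a : Matrix d d ℚ_[ℓ]).map ι) ^ n := by
  induction n with
  | zero => rw [pow_zero, pow_zero, rho_one]
  | succ n ih => rw [pow_succ, pow_succ, rho_mul, ih]

end rep

/-- the first inclusion -/
theorem le_E (h1 : NeaStmt) (hN : NtzStmt) (hL : LatStmt) (hS : SpnStmt)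
    (hC : Ctx M w E V π) (hw : 1 ≤ w) {s : ℕ} {e : Fin s → Matrix d d ℂ} (he : Prim M e)
    {nn : Fin s → ℕ} (hn : ∀ i, 0 < nn i) (hnn : ∀ i, (e i).trace = (nn i : ℂ))
    {ℓ : ℕ} [Fact ℓ.Prime] {Γ : Type} [Group Γ] [TopologicalSpace Γ] [IsTopologicalGroup Γ]
    [CompactSpace Γ] {ρ : Γ →* GL d ℚ_[ℓ]} (hρ : Continuous ρ) (ι : ℚ_[ℓ] →+* ℂ)
    (hW : ∀ γ : Γ, ∀ A ∈ UP M, (ρ γ : Matrix d d ℚ_[ℓ]).map ι * A *
      ((ρ γ : Matrix d d ℚ_[ℓ]).map ι)⁻¹ ∈ UP M)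
    {Γc : Subgroup Γ} (hc : Γc.FiniteIndex)
    (hcomm : ∀ γ ∈ Γc, ∀ B ∈ Cmt M, (ρ γ : Matrix d d ℚ_[ℓ]).map ι * B =
      B * (ρ γ : Matrix d d ℚ_[ℓ]).map ι)
    (hD : DetRel M w V ρ ι)
    {K : Type u} [Field K] [CharZero K] [Algebra ℚ_[ℓ] K] {x : Matrix d d K}
    (hx : x ∈ monodromy ρ K) : x ∈ GenM M w V K := by
  intro I hI hT hun
  obtain ⟨k, hk, hkm⟩ := hL d M w E V π hC s e he.idem he.mem
  obtain ⟨Γ', hΓ', hne⟩ := h1 d ℓ Γ ρ hρ
  have hfin : (Γ' ⊓ Γc).FiniteIndex := by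
    have := hΓ'
    have := hc
    infer_instance
  obtain ⟨hxu, hx2⟩ := hx (Γ' ⊓ Γc) hfin
  refine ⟨hxu, fun p hp => ?_⟩
  have h6 := hx2 (MvPolynomial.map (algebraMap ℚ ℚ_[ℓ]) p) (by
    rintro _ ⟨γ, hγ, rfl⟩
    rw [pev_map]
    have h7 : (ρ γ : Matrix d d ℚ_[ℓ]).map ι ∈ zeros I ℂ := by
      obtain ⟨h, hh⟩ : ∃ h : Matrix d d ℂ, h = (ρ γ : Matrix d d ℚ_[ℓ]).map ι := ⟨_, rfl⟩
      have hhc : ∀ B ∈ Cmt M, h * B = B * h := by
        intro B hB
        rw [hh]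
        exact hcomm γ hγ.2 B hB
      rw [← hh]
      obtain ⟨⟨r, xx, c, hx0, hind, hdet, hmem⟩, -⟩ := hN d M w E V π hC s e he nn hn hnn h
        (by rw [hh]; exact rho_unit ι γ) (by rw [hh]; exact hne γ hγ.1 ι)
        (by intro A hA; rw [hh]; exact hW γ A hA) hhc
      refine hmem (zeros I ℂ) hI.2.1 hI.1 ?_ hun (fun j => ?_)
      · intro g hg
        refine ⟨hg.1, fun q hq => ?_⟩
        rw [← pevC]
        exact hg.2 _ (fun y hy => by rw [pevC]; exact hy.2 q hq)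
      · have h8 := hS s (Set.range k) (c j) (by
          intro m hm
          have h9 := (hkm m).2 (fun τ => hm _ ⟨τ, rfl⟩)
          obtain ⟨Γ1, hΓ1, h10⟩ := (hD s e m he.idem he.mem).2 h9
          obtain ⟨N, hN0, -, hNm⟩ := Subgroup.exists_pow_mem_of_index_ne_zero
            (H := Γ1) hΓ1.index_ne_zero γ
          have h11 := h10 _ hNm
          rw [rho_pow, ← hh] at h11
          have h12 : (∏ i, dete h (e i) ^ m i) ^ N = 1 := by
            rw [← h11, ← Finset.prod_pow]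
            apply Finset.prod_congr rfl
            intro i _
            rw [dete_pow (he.idem i) (hhc _ (he.mem i).1), ← zpow_natCast, ← zpow_natCast,
              zpow_comm]
          rw [Finset.prod_congr rfl fun i _ => by rw [hdet i], prodx hx0 c m] at h12
          exact congrFun (prodx_pow hind hN0 h12) j)
        have h9 : ∀ f ∈ Submodule.span ℂ ((fun (v : Fin s → ℤ) (i : Fin s) => (v i : ℂ)) ''
            Set.range k), ∑ i, (f i / (nn i : ℂ)) • e i ∈ lieOf (zeros I ℂ) := by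
          intro f hf
          induction hf using Submodule.span_induction with
          | mem f hf =>
            obtain ⟨_, ⟨τ, rfl⟩, rfl⟩ := hf
            obtain ⟨u, hu, hdec⟩ := phi_dec hC he hn hnn hk τ
            have h10 := ((aut d M w E V π hC).2 τ).2.2.2 I hI hT hw
            rw [hdec] at h10
            have h11 := Submodule.sub_mem _ h10 (UP_lie hI.2.1 hun hu)
            rwa [add_sub_cancel_left] at h11
          | zero =>
            have : ∑ i, ((0 : Fin s → ℂ) i / (nn i : ℂ)) • e i = 0 := by simp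
            rw [this]
            exact Submodule.zero_mem _
          | add f g _ _ hf hg =>
            have : ∑ i, ((f + g) i / (nn i : ℂ)) • e i =
                ∑ i, (f i / (nn i : ℂ)) • e i + ∑ i, (g i / (nn i : ℂ)) • e i := by
              rw [← Finset.sum_add_distrib]
              apply Finset.sum_congr rfl
              intro i _
              rw [Pi.add_apply, add_div, add_smul]
            rw [this]
            exact Submodule.add_mem _ hf hg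
          | smul a f _ hf =>
            have : ∑ i, ((a • f) i / (nn i : ℂ)) • e i = a • ∑ i, (f i / (nn i : ℂ)) • e i := by
              rw [Finset.smul_sum]
              apply Finset.sum_congr rfl
              intro i _
              rw [Pi.smul_apply, smul_eq_mul, mul_div_assoc, mul_smul]
            rw [this]
            exact Submodule.smul_mem _ _ hf
        exact h9 _ h8
    have h8 := h7.2 p hp
    rw [pev_hom ι] at h8
    exact (map_eq_zero_iff ι ι.injective).1 h8)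
  rwa [pev_map] at h6

/-- the words in the unipotents and the conjugates of the cocharacter -/
def Zw (M : Set (Matrix d d ℂ)) (w : ℕ) (π : ℕ → Matrix d d ℂ) : Submonoid (Matrix d d ℂ) :=
  Submonoid.closure (Uni M ∪ {x | ∃ (τ : ℂ ≃+* ℂ) (t : ℂ), t ≠ 0 ∧ x = Tt w π τ t})

theorem Zw_aut (hr : ∀ τ : ℂ ≃+* ℂ, ∀ γ ∈ M, γ.map τ = γ) (τ : ℂ ≃+* ℂ) {z : Matrix d d ℂ}
    (hz : z ∈ Zw M w π) : z.map τ ∈ Zw M w π := by
  unfold Zw at hz ⊢
  induction hz using Submonoid.closure_induction with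
  | mem x hx =>
    apply Submonoid.subset_closure
    rcases hx with hx | ⟨σ, t, ht, rfl⟩
    · exact Or.inl (Uni_aut hr τ hx)
    · exact Or.inr ⟨σ.trans τ, τ t, (map_ne_zero_iff τ τ.injective).2 ht, Tt_aut w π σ τ t⟩
  | one =>
    have : (1 : Matrix d d ℂ).map τ = 1 := Matrix.map_one τ (map_zero τ) (map_one τ)
    rw [this]
    exact Submonoid.one_mem _
  | mul x y _ _ hx hy =>
    rw [map_mat_mul]
    exact Submonoid.mul_mem _ hx hy

/-- the second inclusion -/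
theorem ge_E (h1 : NeaStmt) (h4 : CurStmt) (h5 : DesStmt) (hN : NtzStmt) (hL : LatStmt)
    (hLi : LitStmt) (hC : Ctx M w E V π) {s : ℕ} {e : Fin s → Matrix d d ℂ} (he : Prim M e)
    {nn : Fin s → ℕ} (hn : ∀ i, 0 < nn i) (hnn : ∀ i, (e i).trace = (nn i : ℂ))
    {ℓ : ℕ} [Fact ℓ.Prime] {Γ : Type} [Group Γ] [TopologicalSpace Γ] [IsTopologicalGroup Γ]
    [CompactSpace Γ] {ρ : Γ →* GL d ℚ_[ℓ]} (hρ : Continuous ρ) (ι : ℚ_[ℓ] →+* ℂ)
    (hW : ∀ γ : Γ, ∀ A ∈ UP M, (ρ γ : Matrix d d ℚ_[ℓ]).map ι * A *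
      ((ρ γ : Matrix d d ℚ_[ℓ]).map ι)⁻¹ ∈ UP M)
    {Γc : Subgroup Γ} (hc : Γc.FiniteIndex)
    (hcomm : ∀ γ ∈ Γc, ∀ B ∈ Cmt M, (ρ γ : Matrix d d ℚ_[ℓ]).map ι * B =
      B * (ρ γ : Matrix d d ℚ_[ℓ]).map ι)
    (hcomp : ∀ Γ' : Subgroup Γ, Γ'.FiniteIndex → ∀ f : MvPolynomial (d × d) ℚ_[ℓ],
      (∀ γ ∈ Γ', pev (ρ γ : Matrix d d ℚ_[ℓ]) f = 0) →
      ∀ u ∈ Uni M, pev u (MvPolynomial.map ι f) = 0)
    (hD : DetRel M w V ρ ι)
    {K : Type u} [Field K] [CharZero K] [Algebra ℚ_[ℓ] K] {x : Matrix d d K}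
    (hx : x ∈ GenM M w V K) : x ∈ monodromy ρ K := by
  intro Γ' hΓ'
  obtain ⟨T, hT⟩ : ∃ T : Set (Matrix d d ℂ), T = {X | ∃ γ ∈ Γ', X = (ρ γ : Matrix d d ℚ_[ℓ]).map ι} :=
    ⟨_, rfl⟩
  have hTm : ∀ a ∈ T, ∀ b ∈ T, a * b ∈ T := by
    rw [hT]
    rintro _ ⟨a, ha, rfl⟩ _ ⟨b, hb, rfl⟩
    exact ⟨a * b, Γ'.mul_mem ha hb, (rho_mul ι a b).symm⟩
  have hT1 : (1 : Matrix d d ℂ) ∈ T := by
    rw [hT]
    exact ⟨1, Γ'.one_mem, (rho_one ι).symm⟩
  -- the unipotents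
  have hUT : ∀ u ∈ Uni M, u ∈ zcl T := by
    intro u hu
    refine ⟨by rw [det_uni hu]; exact isUnit_one, fun q hq => ?_⟩
    let _ : Algebra ℚ_[ℓ] ℂ := ι.toAlgebra
    refine vanish_basechange (F := ℚ_[ℓ]) (K := ℂ)
      (S := {X | ∃ γ ∈ Γ', X = (ρ γ : Matrix d d ℚ_[ℓ])}) ?_ q ?_
    · intro p hp
      have h6 := hcomp Γ' hΓ' p (fun γ hγ => hp _ ⟨γ, hγ, rfl⟩) u hu
      have h7 : pev u (MvPolynomial.map (algebraMap ℚ_[ℓ] ℂ) p) = pev u p := pev_map u p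
      rw [← h7]
      exact h6
    · rintro _ ⟨γ, hγ, rfl⟩
      apply hq
      rw [hT]
      exact ⟨γ, hγ, rfl⟩
  -- the closure
  obtain ⟨G, hG⟩ : ∃ G : Set (Matrix d d ℂ), G = zcl T := ⟨_, rfl⟩
  have hGm : ∀ a ∈ G, ∀ b ∈ G, a * b ∈ G := by
    rw [hG]
    intro a ha b hb
    exact zcl_mul hTm ha hb
  have hG1 : (1 : Matrix d d ℂ) ∈ G := by
    rw [hG]
    exact zcl_one hT1
  have hGc : ∀ g ∈ zclosure ℂ ℂ G, g ∈ G := by
    rw [hG]
    intro g hg
    exact zcl_zcl hg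
  have hGu : ∀ u ∈ Uni M, u ∈ G := by
    rw [hG]
    exact hUT
  obtain ⟨Γn, hΓn, hne⟩ := h1 d ℓ Γ ρ hρ
  obtain ⟨Γ2, hΓ2⟩ : ∃ Γ2 : Subgroup Γ, Γ2 = Γ' ⊓ (Γn ⊓ Γc) := ⟨_, rfl⟩
  have hfin : Γ2.FiniteIndex := by
    have := hΓ'
    have := hΓn
    have := hc
    rw [hΓ2]
    infer_instance
  obtain ⟨k, hk, hkm⟩ := hL d M w E V π hC s e he.idem he.mem
  -- the central torus
  have hlie : ∀ τ : ℂ ≃+* ℂ, ∑ i, ((k τ i : ℂ) / (nn i : ℂ)) • e i ∈ lieOf G := by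
    intro τ
    refine hLi d s e he.idem he.orth he.sum G hGm
      {ζ | (∀ i, ζ i ≠ 0) ∧ ∑ i, ζ i • e i ∈ G} (fun ζ hζ => hζ.1) ⟨fun i => one_ne_zero, ?_⟩ ?_
      (fun ζ hζ => hζ.2) _ ?_
    · simp only [Pi.one_apply, one_smul]
      rw [he.sum]
      exact hG1
    · intro ζ hζ ξ hξ
      refine ⟨fun i => mul_ne_zero (hζ.1 i) (hξ.1 i), ?_⟩
      have := hGm _ hζ.2 _ hξ.2
      rw [comb_mul he.idem he.orth] at this
      exact this
    · intro m hm
      obtain ⟨M', hM'⟩ : ∃ M' : Fin s → ℤ, ∀ i, (nn i : ℤ) * M' i = m i * ∏ j, (nn j : ℤ) := by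
        refine ⟨fun i => m i * ∏ j ∈ Finset.univ.erase i, (nn j : ℤ), fun i => ?_⟩
        rw [← Finset.mul_prod_erase Finset.univ (fun j => (nn j : ℤ)) (Finset.mem_univ i)]
        ring
      have h9 := (hD s e M' he.idem he.mem).1 ⟨Γ2, hfin, fun γ hγ => by
        rw [hΓ2] at hγ
        obtain ⟨h, hh⟩ : ∃ h : Matrix d d ℂ, h = (ρ γ : Matrix d d ℚ_[ℓ]).map ι := ⟨_, rfl⟩
        rw [← hh]
        obtain ⟨⟨r, xx, c, hx0, hind, hdet, -⟩, N, ζ, hN0, hζ0, hζ, hmem⟩ :=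
          hN d M w E V π hC s e he nn hn hnn h
          (by rw [hh]; exact rho_unit ι γ) (by rw [hh]; exact hne γ hγ.2.1 ι)
          (by intro A hA; rw [hh]; exact hW γ A hA)
          (by intro B hB; rw [hh]; exact hcomm γ hγ.2.2 B hB)
        have hhG : h ∈ G := by
          rw [hG]
          refine ⟨by rw [hh]; exact rho_unit ι γ, fun p hp => hp h ?_⟩
          rw [hT]
          exact ⟨γ, hγ.1, hh⟩
        have h10 := hm ζ ⟨hζ0, hmem G hGm hG1 hGc hGu hhG⟩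
        have h11 : (∏ i, dete h (e i) ^ M' i) ^ N = 1 := by
          have h12 : (∏ i, dete h (e i) ^ M' i) ^ N = ∏ i, ζ i ^ ((nn i : ℤ) * M' i) := by
            rw [← Finset.prod_pow]
            apply Finset.prod_congr rfl
            intro i _
            rw [_root_.zpow_mul, zpow_natCast, hζ i, ← zpow_natCast, ← zpow_natCast, zpow_comm]
          rw [h12, Finset.prod_congr rfl fun i _ => by rw [hM' i, _root_.zpow_mul], Finset.prod_zpow, h10,
            _root_.one_zpow]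
        rw [Finset.prod_congr rfl fun i _ => by rw [hdet i], prodx hx0 c M'] at h11 ⊢
        have h13 := prodx_pow hind hN0 h11
        apply Finset.prod_eq_one
        intro j _
        have h14 : ∑ i, M' i * c j i = 0 := congrFun h13 j
        rw [h14, zpow_zero]⟩
      have h10 := (hkm M').1 h9 τ
      have h11 : (∏ j, ((nn j : ℤ) : ℂ)) * ∑ i, (m i : ℂ) * ((k τ i : ℂ) / (nn i : ℂ)) =
          ((∑ i, M' i * k τ i : ℤ) : ℂ) := by
        rw [Finset.mul_sum]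
        push_cast
        apply Finset.sum_congr rfl
        intro i _
        have h12 := congrArg (fun z : ℤ => (z : ℂ)) (hM' i)
        push_cast at h12
        have h13 : (nn i : ℂ) ≠ 0 := by exact_mod_cast (hn i).ne'
        have h14 : (∏ j, (nn j : ℂ)) * (m i : ℂ) = (nn i : ℂ) * (M' i : ℂ) := by
          rw [h12]
          ring
        calc (∏ j, (nn j : ℂ)) * ((m i : ℂ) * ((k τ i : ℂ) / (nn i : ℂ)))
            = ((∏ j, (nn j : ℂ)) * (m i : ℂ)) * ((k τ i : ℂ) / (nn i : ℂ)) := by ring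
          _ = (M' i : ℂ) * (k τ i : ℂ) := by
              rw [h14]
              field_simp
      rw [h10, Int.cast_zero] at h11
      rcases mul_eq_zero.1 h11 with h12 | h12
      · exfalso
        rw [Finset.prod_eq_zero_iff] at h12
        obtain ⟨j, -, hj⟩ := h12
        have : (nn j : ℂ) = 0 := by exact_mod_cast hj
        exact (hn j).ne' (by exact_mod_cast this)
      · exact h12
  have hTG : ∀ (τ : ℂ ≃+* ℂ) (t : ℂ), t ≠ 0 → Tt w π τ t ∈ G := by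
    intro τ t ht
    refine Tt_mem h4 hC.proj τ hG1 hGc ?_ ht
    obtain ⟨u, hu, hdec⟩ := phi_dec hC he hn hnn hk τ
    rw [hdec]
    exact Submodule.add_mem _ (UP_lie hGm hGu hu) (hlie τ)
  -- descent
  have hr : ∀ τ : ℂ ≃+* ℂ, ∀ γ ∈ M, γ.map τ = γ := fun τ => rat_tau hC τ
  have hZT : (Zw M w π : Set (Matrix d d ℂ)) ⊆ zcl T := by
    apply clo_sub hTm hT1
    rintro z (hz | ⟨τ, t, ht, rfl⟩)
    · exact hUT z hz
    · rw [← hG]
      exact hTG τ t ht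
  have haut : ∀ (τ : ℂ ≃+* ℂ), ∀ z ∈ (Zw M w π : Set (Matrix d d ℂ)),
      z.map τ ∈ (Zw M w π : Set (Matrix d d ℂ)) := fun τ z hz => Zw_aut hr τ hz
  obtain ⟨hze, hzg⟩ := des_group h5 (Z := (Zw M w π : Set (Matrix d d ℂ)))
    (fun a ha b hb => Submonoid.mul_mem _ ha hb) (Submonoid.one_mem _) haut
  have hTu : ∀ (τ : ℂ ≃+* ℂ) (t : ℂ), t ≠ 0 → Tt w π τ t ∈ zcl (Zw M w π : Set (Matrix d d ℂ)) := by
    intro τ t ht
    have h6 := hTG τ t ht
    rw [hG] at h6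
    exact ⟨h6.1, fun p hp => hp _ (Submonoid.subset_closure (Or.inr ⟨τ, t, ht, rfl⟩))⟩
  have hxz := hx _ hzg (by
    intro T0 hT0
    rw [hze]
    obtain ⟨z, hz0, rfl⟩ := torus_eq hC hT0
    rw [hz_split hC.proj]
    exact zcl_mul (fun a ha b hb => Submonoid.mul_mem _ ha hb) (hTu _ _ hz0)
      (hTu _ _ ((_root_.map_ne_zero _).2 hz0))) (by
    intro u hu
    rw [hze]
    exact ⟨by rw [det_uni hu]; exact isUnit_one,
      fun p hp => hp _ (Submonoid.subset_closure (Or.inl hu))⟩)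
  refine ⟨hxz.1, fun f hf => ?_⟩
  have h6 := h5 d (Zw M w π : Set (Matrix d d ℂ)) haut ℚ_[ℓ] ι f (by
    intro z hz
    apply (hZT hz).2
    rw [hT]
    rintro _ ⟨γ, hγ, rfl⟩
    rw [pev_ring, hf _ ⟨γ, hγ, rfl⟩, map_zero])
  exact span_pev hxz.2 h6

/-- LADE -/
theorem ladE (h1 : NeaStmt) (h4 : CurStmt) (h5 : DesStmt) (hP : PriStmt) (hN : NtzStmt)
    (hL : LatStmt) (hLi : LitStmt) (hS : SpnStmt) (hF : FkdStmt) : LadEStmt.{u} := by
  intro d _ _ M hM hI w E V hw hV hE hT ℓ _ Γ _ _ _ _ ρ hρ hgeo K _ _ _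
  obtain ⟨ι, hg1, hg2, hg3, hg4⟩ := hgeo
  obtain ⟨π, hπ, hp1, hp2, hp3⟩ := proj_of hV
  have hC : Ctx M w E V π := ⟨hM, hI, hV, hE, hT, hπ, hp1, hp2, hp3⟩
  obtain ⟨s, e, he⟩ := hP d M w E V π hC
  choose nn hn hnn using fun i => trace_pos (he.idem i) (he.ne i)
  have hD : DetRel M w V ρ ι := by
    rcases hg4 with ⟨h6, h7, h8⟩ | h6
    · exact hF d M w E V π hC hw h6 ℓ Γ ρ ι hg2 h7 h8
    · exact h6
  have hW : ∀ γ : Γ, ∀ A ∈ UP M, (ρ γ : Matrix d d ℚ_[ℓ]).map ι * A *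
      ((ρ γ : Matrix d d ℚ_[ℓ]).map ι)⁻¹ ∈ UP M := by
    intro γ A hA
    induction hA using Submodule.span_induction with
    | mem X hX => exact Submodule.subset_span (hg1 γ X hX)
    | zero =>
      rw [mul_zero, zero_mul]
      exact Submodule.zero_mem _
    | add X Y _ _ h3 h4 =>
      rw [mul_add, add_mul]
      exact Submodule.add_mem _ h3 h4
    | smul c X _ h3 =>
      rw [Matrix.mul_smul, Matrix.smul_mul]
      exact Submodule.smul_mem _ _ h3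
  obtain ⟨Γc, hc, hcomm⟩ := hg2
  refine Set.Subset.antisymm ?_ ?_
  · intro x hx
    exact le_E h1 hN hL hS hC hw he hn hnn hρ ι hW hc hcomm hD hx
  · intro x hx
    exact ge_E h1 h4 h5 hN hL hLi hC he hn hnn hρ ι hW hc hcomm hg3 hD hx

end Pool.Agent.MT100E.H97
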