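import Pool.Agent.MT100E.Stmts
import Pool.Agent.Helper97_MTA.Lah

/-! MT100-E, modules NFZ and AUT. -/

set_option autoImplicit false
set_option linter.unusedSectionVars false

namespace Pool.Agent.MT100E.H97

open Matrix Polynomial Pool.Agent.MT100 Pool.Agent.MT100G Pool.Agent.MT100A Pool.Agent.MT100D
  Pool.Agent.Helper78_MT Pool.Agent.MT100A.H78 Pool.Agent.Helper46_MT
open Pool.Agent.MT100A.H97 (phi_comm ue_aut zc_aut Uni_aut pev_ring)

variable {d : Type} [Fintype d] [DecidableEq d] {M : Set (Matrix d d ℂ)} {w : ℕ}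
  {E : Matrix d d ℚ} {π : ℕ → Matrix d d ℂ} {V : ℕ → Submodule ℂ (d → ℂ)}

theorem rat_tau (hC : Ctx M w E V π) (τ : ℂ ≃+* ℂ) : ∀ γ ∈ M, γ.map τ = γ := by
  intro γ hγ
  obtain ⟨A, rfl⟩ := hC.int γ hγ
  ext i j
  simp

theorem rat_star (hC : Ctx M w E V π) : ∀ γ ∈ M, γ.map (starRingEnd ℂ) = γ := by
  intro γ hγ
  obtain ⟨A, rfl⟩ := hC.int γ hγ
  ext i j
  simp

theorem nondeg (hC : Ctx M w E V π) :
    ∀ X ∈ UP M, (∀ Y ∈ UP M, (X * Y).trace = 0) → X = 0 := fun _ hX hX0 =>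
  UP_nd hC.pol hC.proj hC.mem hC.fix hC.tor.1 (rat_star hC) hC.inv hX hX0

theorem UP_cmt {u B : Matrix d d ℂ} (hu : u ∈ UP M) (hB : B ∈ Cmt M) : u * B = B * u := by
  induction hu using Submodule.span_induction with
  | mem X hX => exact (hB X hX).symm
  | zero => rw [zero_mul, mul_zero]
  | add X Y _ _ h1 h2 => rw [add_mul, mul_add, h1, h2]
  | smul c X _ h1 => rw [smul_mul_assoc, mul_smul_comm, h1]

theorem UP_tr {u B : Matrix d d ℂ} (hu : u ∈ UP M) (hB : B ∈ Cmt M) : (u * B).trace = 0 := by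
  induction hu using Submodule.span_induction with
  | mem X hX =>
    have hc : Commute X B := (hB X hX).symm
    exact (isNilpotent_trace_of_isNilpotent (hc.isNilpotent_mul_right hX.1)).eq_zero
  | zero => rw [zero_mul, trace_zero]
  | add X Y _ _ h1 h2 => rw [add_mul, trace_add, h1, h2, add_zero]
  | smul c X _ h1 => rw [smul_mul_assoc, trace_smul, h1, smul_zero]

/-- infinitesimal normalisers -/
theorem norm_z (hC : Ctx M w E V π) {D : Matrix d d ℂ}
    (hD : ∀ A ∈ UP M, D * A - A * D ∈ UP M) (hDC : ∀ B ∈ Cmt M, D * B = B * D) :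
    ∃ u ∈ UP M, ∃ z ∈ Zt M, D = u + z := by
  have hnd := nondeg hC
  have hM := hC.mul
  obtain ⟨u, hu, htr⟩ := UP_proj hnd D
  have hcm : D - u ∈ Cmt M := by
    intro X hX
    have hXU : X ∈ UP M := Submodule.subset_span hX
    have h3 : (D - u) * X - X * (D - u) ∈ UP M := by
      have h4 : (D - u) * X - X * (D - u) = (D * X - X * D) - (u * X - X * u) := by
        rw [sub_mul, mul_sub]; abel
      rw [h4]
      exact Submodule.sub_mem _ (hD X hXU) (UP_br hM hu hXU)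
    have h4 := hnd _ h3 (by
      intro Y hY
      have h5 : ∀ D : Matrix d d ℂ, ((D * X - X * D) * Y).trace =
          (D * (X * Y - Y * X)).trace := by
        intro D
        rw [sub_mul, trace_sub, mul_sub, trace_sub, Matrix.mul_assoc D X Y, Matrix.mul_assoc X D Y,
          trace_mul_comm X (D * Y), Matrix.mul_assoc D Y X]
      have h6 := htr _ (UP_br hM hXU hY)
      rw [h5, sub_mul, trace_sub, h6, sub_self])
    exact sub_eq_zero.mp h4
  exact ⟨u, hu, D - u, ⟨hcm, fun B hB => by rw [sub_mul, mul_sub, hDC B hB, UP_cmt hu hB]⟩,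
    by rw [add_sub_cancel]⟩

/-- NFZ -/
theorem nfz : NfzStmt := by
  intro d _ _ M w E V π hC
  exact ⟨fun D hD hDC => norm_z hC hD hDC, fun u hu B hB => UP_tr hu hB⟩

/-! ### Automorphisms -/

theorem map_symm_mat (τ : ℂ ≃+* ℂ) (X : Matrix d d ℂ) : (X.map τ.symm).map τ = X := by
  ext i j
  simp

theorem map_mat_mul (τ : ℂ ≃+* ℂ) (X Y : Matrix d d ℂ) : (X * Y).map τ = X.map τ * Y.map τ := by
  have := map_mul (τ : ℂ →+* ℂ).mapMatrix X Y
  rwa [RingHom.mapMatrix_apply, RingHom.mapMatrix_apply, RingHom.mapMatrix_apply] at this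

theorem nilP_aut (hr : ∀ τ : ℂ ≃+* ℂ, ∀ γ ∈ M, γ.map τ = γ) (τ : ℂ ≃+* ℂ) {X : Matrix d d ℂ}
    (hX : X ∈ nilP M) : X.map τ ∈ nilP M := by
  obtain ⟨⟨k, hk⟩, hs⟩ := hX
  refine ⟨⟨k, ?_⟩, fun s => ?_⟩
  · have := (map_pow (τ : ℂ →+* ℂ).mapMatrix X k).symm
    rw [RingHom.mapMatrix_apply, hk, map_zero] at this
    exact this
  · have h1 := zc_aut hr τ (hs (τ.symm s))
    rwa [ue_aut, RingEquiv.apply_symm_apply] at h1

theorem UP_aut (hr : ∀ τ : ℂ ≃+* ℂ, ∀ γ ∈ M, γ.map τ = γ) (τ : ℂ ≃+* ℂ) {X : Matrix d d ℂ}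
    (hX : X ∈ UP M) : X.map τ ∈ UP M := by
  induction hX using Submodule.span_induction with
  | mem X hX => exact Submodule.subset_span (nilP_aut hr τ hX)
  | zero =>
    rw [Matrix.map_zero _ (map_zero τ)]
    exact Submodule.zero_mem _
  | add X Y _ _ h1 h2 =>
    rw [Matrix.map_add _ (map_add τ)]
    exact Submodule.add_mem _ h1 h2
  | smul c X _ h1 =>
    have : (c • X).map τ = τ c • X.map τ := by
      ext i j
      simp
    rw [this]
    exact Submodule.smul_mem _ _ h1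

theorem Cmt_aut (hr : ∀ τ : ℂ ≃+* ℂ, ∀ γ ∈ M, γ.map τ = γ) (τ : ℂ ≃+* ℂ) {B : Matrix d d ℂ}
    (hB : B ∈ Cmt M) : B.map τ ∈ Cmt M := by
  intro X hX
  have h1 := hB _ (nilP_aut hr τ.symm hX)
  have h2 := congrArg (fun Y : Matrix d d ℂ => Y.map τ) h1
  rw [map_mat_mul, map_mat_mul, map_symm_mat] at h2
  exact h2

theorem Zt_aut (hr : ∀ τ : ℂ ≃+* ℂ, ∀ γ ∈ M, γ.map τ = γ) (τ : ℂ ≃+* ℂ) {B : Matrix d d ℂ}
    (hB : B ∈ Zt M) : B.map τ ∈ Zt M := by
  refine ⟨Cmt_aut hr τ hB.1, fun C hC => ?_⟩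
  have h1 := hB.2 _ (Cmt_aut hr τ.symm hC)
  have h2 := congrArg (fun Y : Matrix d d ℂ => Y.map τ) h1
  rw [map_mat_mul, map_mat_mul, map_symm_mat] at h2
  exact h2

/-- the projections commute with the commutant -/
theorem proj_cmt (hC : Ctx M w E V π) {p : ℕ} (hp : p ≤ w) {B : Matrix d d ℂ} (hB : B ∈ Cmt M) :
    π p * B = B * π p := by
  have hΦ := phi_comm hC.proj hC.fix hC.tor B hB
  have hπ := hC.proj
  have hl : ∀ q ≤ w, π q * Phi w π = (q : ℂ) • π q := by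
    intro q hq
    unfold Phi
    rw [Finset.mul_sum, Finset.sum_eq_single q]
    · rw [mul_smul_comm, hπ.idem q hq]
    · intro r hr hne
      rw [mul_smul_comm, hπ.orth q hq r (Nat.lt_succ_iff.1 (Finset.mem_range.1 hr)) (Ne.symm hne),
        smul_zero]
    · intro hq'
      exact absurd (Finset.mem_range.2 (Nat.lt_succ_iff.2 hq)) hq'
  have hr : ∀ q ≤ w, Phi w π * π q = (q : ℂ) • π q := by
    intro q hq
    unfold Phi
    exact hπ.mul_sum (fun p => (p : ℂ)) hq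
  have hz : ∀ q ≤ w, ∀ r ≤ w, q ≠ r → π q * B * π r = 0 := by
    intro q hq r hr' hne
    have h1 : π q * (Phi w π * B) * π r = π q * (B * Phi w π) * π r := by rw [hΦ]
    rw [← Matrix.mul_assoc, hl q hq, Matrix.mul_assoc (π q) (B * Phi w π), Matrix.mul_assoc B,
      hr r hr', smul_mul_assoc, smul_mul_assoc, mul_smul_comm, mul_smul_comm,
      ← Matrix.mul_assoc (π q) B] at h1
    have h2 : ((q : ℂ) - r) • (π q * B * π r) = 0 := by rw [sub_smul, h1, sub_self]
    rcases smul_eq_zero.1 h2 with h3 | h3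
    · exact absurd (by exact_mod_cast sub_eq_zero.1 h3) hne
    · exact h3
  have e1 : π p * B = π p * B * π p := by
    conv_lhs => rw [← Matrix.mul_one (π p * B), ← hπ.sum, Finset.mul_sum]
    rw [Finset.sum_eq_single p]
    · intro q hq hne
      exact hz p hp q (Nat.lt_succ_iff.1 (Finset.mem_range.1 hq)) (Ne.symm hne)
    · intro hq'
      exact absurd (Finset.mem_range.2 (Nat.lt_succ_iff.2 hp)) hq'
  have e2 : B * π p = π p * B * π p := by
    conv_lhs => rw [← Matrix.one_mul (B * π p), ← hπ.sum, Finset.sum_mul]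
    rw [Finset.sum_eq_single p]
    · rw [Matrix.mul_assoc]
    · intro q hq hne
      rw [← Matrix.mul_assoc]
      exact hz q (Nat.lt_succ_iff.1 (Finset.mem_range.1 hq)) p hp hne
    · intro hq'
      exact absurd (Finset.mem_range.2 (Nat.lt_succ_iff.2 hp)) hq'
  rw [e1, ← e2]

theorem dr_aut (τ : ℂ ≃+* ℂ) (A : Matrix d d ℂ) (p : MvPolynomial (d × d) ℂ) :
    dr (A.map τ) (MvPolynomial.map (τ : ℂ →+* ℂ) p) = MvPolynomial.map (τ : ℂ →+* ℂ) (dr A p) := by
  induction p using MvPolynomial.induction_on with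
  | C c =>
    rw [MvPolynomial.map_C]
    have h1 : ∀ (A : Matrix d d ℂ) (c : ℂ), dr A (MvPolynomial.C c) = 0 := by
      intro A c
      have := (dr A).map_algebraMap c
      rwa [MvPolynomial.algebraMap_eq] at this
    rw [h1, h1, map_zero]
  | add p q hp hq => rw [map_add, map_add, hp, hq, map_add, map_add]
  | mul_X p ij hp =>
    rw [map_mul, MvPolynomial.map_X, Derivation.leibniz, Derivation.leibniz, hp, dr_X, dr_X,
      smul_eq_mul, smul_eq_mul, smul_eq_mul, smul_eq_mul, map_add, map_mul, map_mul,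
      MvPolynomial.map_X, map_sum]
    congr 2
    apply Finset.sum_congr rfl
    intro k _
    rw [MvPolynomial.smul_eq_C_mul, MvPolynomial.smul_eq_C_mul, map_mul, MvPolynomial.map_C,
      MvPolynomial.map_X]
    rfl

theorem pev_rat (τ : ℂ ≃+* ℂ) (g : Matrix d d ℂ) (p : MvPolynomial (d × d) ℚ) :
    pev (g.map τ) p = τ (pev g p) := by
  have h1 := pev_ring (τ : ℂ →+* ℂ) g (MvPolynomial.map (algebraMap ℚ ℂ) p)
  rw [MvPolynomial.map_map, pevC] at h1
  have h2 : (τ : ℂ →+* ℂ).comp (algebraMap ℚ ℂ) = algebraMap ℚ ℂ := RingHom.ext_rat _ _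
  rw [h2, pevC] at h1
  exact h1

theorem zeros_aut {I : Set (MvPolynomial (d × d) ℚ)} (τ : ℂ ≃+* ℂ) {g : Matrix d d ℂ}
    (hg : g ∈ zeros I ℂ) : g.map τ ∈ zeros I ℂ := by
  refine ⟨?_, fun p hp => ?_⟩
  · have h3 := hg.1.map (τ : ℂ →+* ℂ)
    rw [RingHom.map_det, RingHom.mapMatrix_apply] at h3
    exact h3
  · rw [pev_rat, hg.2 p hp, map_zero]

/-- the Lie algebra of a group over the rationals is stable under the automorphisms -/
theorem lie_aut {I : Set (MvPolynomial (d × d) ℚ)} (τ : ℂ ≃+* ℂ) {A : Matrix d d ℂ}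
    (hA : A ∈ lieOf (zeros I ℂ)) : A.map τ ∈ lieOf (zeros I ℂ) := by
  rw [mem_lieOf] at hA ⊢
  intro p hp g hg
  obtain ⟨q, hq⟩ : ∃ q, q = MvPolynomial.map (τ.symm : ℂ →+* ℂ) p := ⟨_, rfl⟩
  have hpq : p = MvPolynomial.map (τ : ℂ →+* ℂ) q := by
    rw [hq, MvPolynomial.map_map]
    have : (τ : ℂ →+* ℂ).comp (τ.symm : ℂ →+* ℂ) = RingHom.id ℂ := by
      ext x
      simp
    rw [this, MvPolynomial.map_id]
  have hq0 : ∀ g ∈ zeros I ℂ, pev g q = 0 := by
    intro g hg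
    have h1 := pev_ring (τ : ℂ →+* ℂ) g q
    rw [← hpq] at h1
    have h2 := hp _ (zeros_aut τ hg)
    have h3 : pev (g.map (τ : ℂ →+* ℂ)) p = 0 := h2
    rw [h3] at h1
    exact (map_eq_zero_iff τ τ.injective).1 h1.symm
  have h1 := hA q hq0 _ (zeros_aut τ.symm hg)
  have h2 := pev_ring (τ : ℂ →+* ℂ) (g.map τ.symm) (dr A q)
  rw [h1, map_zero, ← dr_aut, ← hpq] at h2
  have h3 : (g.map τ.symm).map (τ : ℂ →+* ℂ) = g := map_symm_mat τ g
  rw [h3] at h2
  exact h2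

/-- AUT -/
theorem aut : AutStmt := by
  intro d _ _ M w E V π hC
  have hr : ∀ τ : ℂ ≃+* ℂ, ∀ γ ∈ M, γ.map τ = γ := fun τ => rat_tau hC τ
  refine ⟨fun p hp B hB => proj_cmt hC hp hB, fun τ => ⟨fun B hB => Cmt_aut hr τ hB,
    fun B hB => Zt_aut hr τ hB, ?_, ?_⟩⟩
  · refine norm_z hC ?_ ?_
    · intro A hA
      have h1 := UP_aut hr τ (UP_phi hC.tor.1 hC.proj hC.fix (UP_aut hr τ.symm hA))
      have h2 : (Phi w π * A.map τ.symm - A.map τ.symm * Phi w π).map τ =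
          (Phi w π).map τ * A - A * (Phi w π).map τ := by
        rw [Matrix.map_sub _ (map_sub τ), map_mat_mul, map_mat_mul, map_symm_mat]
      rwa [h2] at h1
    · intro B hB
      have h1 := phi_comm hC.proj hC.fix hC.tor _ (Cmt_aut hr τ.symm hB)
      have h2 := congrArg (fun Y : Matrix d d ℂ => Y.map τ) h1
      rw [map_mat_mul, map_mat_mul, map_symm_mat] at h2
      exact h2
  · intro I hI hT hw
    refine lie_aut τ (phi_mem hC.proj hw hI fun z hz0 => hT (hz_torus hC.proj hC.fix hz0))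

end Pool.Agent.MT100E.H97
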